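import Mathlib
import Pool.Agent.Helper5.FS.FinOne
import Pool.Agent.Helper5.FS.FinTwo
import Pool.Agent.Helper3.FS.TWX
import Pool.Agent.Helper33.FS.CNT
import Pool.Agent.Helper33.FS.FLIP
import Pool.Agent.Helper53.FS.WALSH
import Pool.Agent.Helper53.FS.TRUNC
import Pool.Agent.Helper71.FS.SUM
import Pool.Agent.Helper89.FS.NEG
import Pool.Agent.Helper9.FS.BAD
import Pool.Agent.Helper9.FS.TAUTWO
import Pool.Agent.Helper91.FS.EXP
import Pool.Agent.Helper31.FS.PARTWO

/-!
# Furstenberg systems of multiplicative functions with very few random signs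

Let `u` be the completely multiplicative function with values `1`, `-1` whose values at the primes are
constant on each of the blocks `m l ≤ log log log p < (m + 1) l`, i.e. `[N, exp ((log N) ^ D))`, `D = exp l`,
with independent fair signs for the different blocks; so there are only about `(1 / l) log log log N` random
signs up to `N`. If `l < log 2`, then for EVERY multiplicative `f` with values `1`, `-1` the function `f u` is
almost surely aperiodic and has exactly one Furstenberg system, the Bernoulli system of independent fair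
signs. For `l > log 2` there are not enough random signs: one weight with values `1`, `-1` correlates (for
logarithmic averages) with `u` for every choice of the signs.

`SignMul f` (`Pool.Agent.W257.FS.D`): `f 1 = 1`, `f (m n) = f m f n` for coprime `m, n`, and
`f n ∈ {1, -1}` for `n ≥ 1`.  `IsFurst f ν` (`Pool.Agent.W257.FS.G`): the probability measure `ν` on
`ℤ → ℝ` is a Furstenberg system of `f` (a weak limit of the logarithmic averages of the point masses at
the shifts of the sequence `x_f`).  `bern` (`Pool.Agent.W257.FS.F`): the law of independent fair signs.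
-/

set_option autoImplicit false

open MeasureTheory ProbabilityTheory Filter Topology
open Pool.Agent.W257.FS (SignMul IsFurst bern)

namespace Pool.Agent.Results.MP_4a7640_nt.FewRandomSigns

/-- the sign of a bit -/
def sign (b : Bool) : ℝ := if b then 1 else -1

/-- the completely multiplicative function whose value at a prime `p` is the sign of the bit `x (ι p)` -/
noncomputable def signs (ι : ℕ → ℕ) (x : ℕ → Bool) (n : ℕ) : ℝ :=
  ∏ p ∈ n.primeFactors, sign (x (ι p)) ^ n.factorization p

/-- `X 0, X 1, …` are independent bits with `P(X j = true) = 1 / 2` -/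
structure FairBits {Ω : Type} [MeasurableSpace Ω] (P : Measure Ω) (X : ℕ → Ω → Bool) : Prop where
  prob : IsProbabilityMeasure P
  meas : ∀ j, Measurable (X j)
  indep : iIndepFun X P
  fair : ∀ j, P {ω | X j ω = true} = 1 / 2

/-- the blocks `m l ≤ log log log p < (m + 1) l`, that is, `[N, exp ((log N) ^ D))`, `D = exp l` -/
noncomputable def level (l : ℝ) (p : ℕ) : ℕ := ⌊Real.log (Real.log (Real.log p)) / l⌋₊

/-- There are few classes: the number `m` of the classes of the primes up to `N` satisfies
`2 ^ m ≤ (log log N) ^ θ`, i.e. `m ≤ θ log₂ log log N`, for some `θ < 1` and all large `N`. -/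
def Few (ι : ℕ → ℕ) : Prop :=
  ∃ θ : ℝ, θ < 1 ∧ ∀ᶠ N : ℕ in atTop,
    (2 : ℝ) ^ (((Finset.Icc 1 N).filter Nat.Prime).image ι).card ≤ Real.log (Real.log N) ^ θ

/-- `F` is aperiodic: the distance to every Dirichlet character is infinite -/
def Aperiodic (F : ℕ → ℝ) : Prop :=
  ∀ (q : ℕ) (χ : DirichletCharacter ℂ q), 1 ≤ q → ¬ Summable (fun p : Nat.Primes =>
    (1 - ((F p : ℂ) * star (χ ((p : ℕ) : ZMod q))).re) / ((p : ℕ) : ℝ))

open Pool.Agent.Helper5.FS in
theorem astwo' : S_ASTWO :=
  astwo (mom (one Pool.Agent.Helper53.FS.walsh (Pool.Agent.Helper53.FS.trunc Pool.Agent.Helper33.FS.cnt))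
    Pool.Agent.Helper33.FS.flip Pool.Agent.Helper3.FS.twx Pool.Agent.Helper9.FS.bad)
    (Pool.Agent.Helper31.FS.partwo Pool.Agent.Helper71.FS.sum) Pool.Agent.Helper9.FS.tautwo

/-- **Very few random signs make the Furstenberg system Bernoulli; the exact number of signs.**
(1) If `0 < l < log 2`, then for every multiplicative `f` with values `1`, `-1`, almost surely `f u` is
aperiodic and `bern` is its only Furstenberg system; and for every bounded `w`, almost surely the logarithmic
averages of `w(n) ∏ u(a_i n + b_i)` tend to `0` for all forms, no two of them proportional.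
(2) If there are few classes, then for all forms there is one weight `w` with values `1`, `-1` for which the
logarithmic averages of `w(n) ∏ u(a_i n + b_i)` do not tend to `0`, for EVERY choice of the signs; this is so
for the blocks if `l > log 2`. -/
theorem result :
    (∀ l : ℝ, 0 < l → l < Real.log 2 → ∀ (Ω : Type) [MeasurableSpace Ω] (P : Measure Ω) (X : ℕ → Ω → Bool),
      FairBits P X →
      (∀ f : ℕ → ℝ, SignMul f → ∀ᵐ ω ∂P,
        SignMul (fun n => f n * signs (level l) (fun j => X j ω) n) ∧
        Aperiodic (fun n => f n * signs (level l) (fun j => X j ω) n) ∧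
        ∀ ν, IsFurst (fun n => f n * signs (level l) (fun j => X j ω) n) ν ↔ ν = bern) ∧
      (∀ w : ℕ → ℂ, (∀ n, ‖w n‖ ≤ 1) → ∀ᵐ ω ∂P, ∀ (k : ℕ) (a b : Fin k → ℕ), 1 ≤ k → (∀ i, 1 ≤ a i) →
        (∀ i j, i ≠ j → a i * b j ≠ a j * b i) →
        Tendsto (fun N : ℕ => (∑ n ∈ Finset.Icc 1 N, w n *
          ((∏ i, signs (level l) (fun j => X j ω) (a i * n + b i) : ℝ) : ℂ) / n) / ((Real.log N : ℝ) : ℂ))
          atTop (𝓝 0))) ∧
    (∀ ι : ℕ → ℕ, Few ι → ∀ (k : ℕ) (a b : Fin k → ℕ), (∀ i, 1 ≤ a i) →
      ∃ w : ℕ → ℝ, (∀ n, w n = 1 ∨ w n = -1) ∧ ∀ x : ℕ → Bool,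
        ¬ Tendsto (fun N : ℕ => (∑ n ∈ Finset.Icc 1 N, w n * (∏ i, signs ι x (a i * n + b i)) / n) /
          Real.log N) atTop (𝓝 0)) ∧
    (∀ l : ℝ, Real.log 2 < l → Few (level l)) := by
  refine ⟨fun l hl0 hl Ω _ P X hX => ⟨fun f hf => ?_, fun w hw => ?_⟩, fun ι hι k a b ha => ?_, fun l hl => ?_⟩
  · exact Pool.Agent.Helper5.FS.furst_two astwo' l hl0 hl P X ⟨hX.prob, hX.meas, hX.indep, hX.fair⟩ f hf
  · exact Pool.Agent.Helper5.FS.elliott_two astwo' l hl0 hl P X ⟨hX.prob, hX.meas, hX.indep, hX.fair⟩ w hw
  · obtain ⟨w, hw, h⟩ := Pool.Agent.Helper89.FS.negtwo ι hι k a b ha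
    refine ⟨w, hw, fun x => ?_⟩
    exact Pool.Agent.Helper5.FS.not_tendsto_of_frequently (D := fun N : ℕ => Real.log N)
      (by filter_upwards [eventually_ge_atTop 2] with N hN
          exact Real.log_pos (by exact_mod_cast hN)) (h x)
  · exact Pool.Agent.Helper91.FS.exptwo l hl

end Pool.Agent.Results.MP_4a7640_nt.FewRandomSigns
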