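import Pool.Agent.Helper16.NL.Fur
import Pool.Agent.Results.MP_663568_nt.AllNilmanifolds
import Pool.Graph.R_seed8.Results.MP_4a7640_nt.PhasePolynomials
import Pool.Graph.R_pool_sql_team_seeded_1e53cb71.Helper42K9.AC.Per

/-!
# Furstenberg systems of aperiodic multiplicative functions with values `1` and `-1` are orthogonal to families of
nilrotations of every step with singular horizontal frequencies, and to their inverse limits

Let `(Z, ρ, S)` be an extension (for example a joining with another system) of a Furstenberg system of an aperiodic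
multiplicative function with values `1` and `-1`. A family of nilrotations in `Z` is a map `φ` to a nilmanifold `Y = G/Γ`
of ANY step with `φ(S z) = g(z) φ(z)`, where `g : Z → G` is invariant. If all integral combinations of the horizontal
coordinates of `g` are irrational and have singular laws then the coordinate `x(0)` is orthogonal to all bounded functions
of `φ` and of an invariant map, and also to all bounded functions which are measurable with respect to an increasing
sequence of such families (relative pro-nilsystems). Quantitatively, `|∫ x(0) w F(φ)| ≤ ε` for invariant `w`, `|w| ≤ 1`,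
and continuous `F` if the horizontal parts lie in a set with small images under finitely many characters; this is
uniform in the multiplicative function, the Furstenberg system, the extension and the family.
-/

set_option autoImplicit false

namespace Pool.Agent.Results.MP_4a7640_nt.NilpotentFamilies

open MeasureTheory Filter Topology Finset
open Pool.Agent.Results.MP_663568_nt.AllNilmanifolds (MalcevCoordinates horizontal SmallHorizontal)

/-- the numbers `-1`, `0`, `1` -/
abbrev Val : Type := ({-1, 0, 1} : Set ℝ)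

/-- the space of two-sided sequences -/
abbrev X : Type := ℤ → Val

/-- the `n`-th power of the shift -/
def shift (n : ℤ) (x : X) : X := fun k => x (k + n)

/-- the sequence of the values `f n`, `n ≥ 1`, extended by zero -/
noncomputable def seq (f : ℕ → Val) : X := fun n => if 1 ≤ n then f n.toNat else ⟨0, by simp⟩

/-- `μ` is a Furstenberg system of `f`: a weak-star limit, along some sequence `N j → ∞`, of the
logarithmic averages of the point masses at the shifts of the sequence of values of `f` -/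
def IsFurstenbergSystem (f : ℕ → Val) (μ : Measure X) : Prop :=
  IsProbabilityMeasure μ ∧ ∃ N : ℕ → ℕ, Tendsto N atTop atTop ∧ ∀ φ : X → ℝ, Continuous φ →
    Tendsto (fun j => (1 / Real.log (N j : ℝ)) * ∑ n ∈ Icc 1 (N j), (1 / (n : ℝ)) * φ (shift (n : ℤ) (seq f)))
      atTop (𝓝 (∫ x, φ x ∂μ))

/-- multiplicative functions with values `1` and `-1` -/
def IsMult (f : ℕ → Val) : Prop := (∀ n : ℕ, 1 ≤ n → (f n : ℝ) ≠ 0) ∧
  ∀ m n : ℕ, 1 ≤ m → 1 ≤ n → Nat.Coprime m n → (f (m * n) : ℝ) = f m * f n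

/-- the distance to every Dirichlet character is infinite -/
def Aperiodic (f : ℕ → Val) : Prop := ∀ Q : ℕ, 0 < Q → ∀ χ : DirichletCharacter ℂ Q,
  ¬ Summable (fun p : ℕ => if p.Prime then
    (1 - (((f p : ℝ) : ℂ) * (starRingEnd ℂ) (χ (p : ZMod Q))).re) / (p : ℝ) else 0)

/-- `(Z, ρ, S)` is an extension of the system `(X, μ, shift 1)`, with factor map `π`; for example a joining of
`(X, μ, shift 1)` with another system -/
def IsExtension {Z : Type} [MeasurableSpace Z] (ρ : Measure Z) (S : Z → Z) (π : Z → X) (μ : Measure X) : Prop :=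
  MeasurePreserving S ρ ρ ∧ MeasurePreserving π ρ μ ∧ ∀ᵐ z ∂ρ, π (S z) = shift 1 (π z)

/-- `φ : Z → Y` is a family of nilrotations: `Y = G/Γ` is a nilmanifold with the projection `p` (any step, with Mal'cev
coordinates `M`), and `φ(S z) = g(z) φ(z)` with an invariant map `g : Z → G` (for almost every `z`). -/
structure NilFamily {Z : Type} [MeasurableSpace Z] (ρ : Measure Z) (S : Z → Z) {G : Type} [Group G] [TopologicalSpace G]
    {Γ : Subgroup G} (M : MalcevCoordinates G Γ) {Y : Type} [TopologicalSpace Y] [MeasurableSpace Y]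
    (p : G → Y) (g : Z → G) (φ : Z → Y) : Prop where
  continuous : Continuous p
  surjective : Function.Surjective p
  fibres : ∀ a b : G, p a = p b ↔ a⁻¹ * b ∈ Γ
  measurable : Measurable φ
  measurable_horizontal : Measurable fun z => horizontal M (g z)
  invariant : ∀ᵐ z ∂ρ, g (S z) = g z
  rotation : ∀ᵐ z ∂ρ, ∀ h : G, p h = φ z → φ (S z) = p (g z * h)

/-- Singular horizontal frequencies: for every integer vector `k ≠ 0` the number `k · x` modulo one, `x ∈ ℝ^d/ℤ^d` the
horizontal part of `g(z)`, is almost surely irrational and its law is singular to Lebesgue measure. -/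
def Singular {Z : Type} [MeasurableSpace Z] (ρ : Measure Z) {G : Type} [Group G] [TopologicalSpace G] {Γ : Subgroup G}
    (M : MalcevCoordinates G Γ) (g : Z → G) : Prop :=
  ∀ k : Fin (M.d 0) → ℤ, k ≠ 0 →
    (ρ.map fun z => ∑ i, k i • horizontal M (g z) i) ⟂ₘ (volume : Measure UnitAddCircle) ∧
    ∀ᵐ z ∂ρ, ∀ t : ℝ, (t : UnitAddCircle) = ∑ i, k i • horizontal M (g z) i → Irrational t

open Pool.Agent.Helper16.NL
open Pool.Agent.Results.MP_663568_nt.AllNilmanifolds (toNil sm_of irr_of)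

lemma hPER : Pool.Agent.Helper42K9.AC.S_PER :=
  Pool.Agent.Helper42K9.AC.per
    (fun f hf ha _ hμ => Pool.Agent.Results.MP_4a7640_nt.PhasePolynomials.no_atoms (f := f) hf ha hμ)
    (fun f μ hμ => Pool.Agent.Results.MP_4a7640_nt.PhasePolynomials.mp_shift (f := f) (μ := μ) hμ)

section

variable {G : Type} [Group G] [TopologicalSpace G] {Γ : Subgroup G} (M : MalcevCoordinates G Γ)
  {Y : Type} [TopologicalSpace Y] [MeasurableSpace Y] {p : G → Y}

omit [MeasurableSpace Y] in
lemma lat_comp (hp : IsQ Γ p) (F : Y → ℂ) (g γ : G) (hγ : γ ∈ Γ) : F (p (g * γ)) = F (p g) := by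
  rw [(hp.2.2 _ _).2 (show (g * γ)⁻¹ * g ∈ Γ by
    rw [mul_inv_rev, mul_assoc, inv_mul_cancel, mul_one]; exact inv_mem hγ)]

variable {Z : Type} [MeasurableSpace Z] {ρ : Measure Z} {S : Z → Z}

lemma orbit {g : Z → G} {φ : Z → Y} (hS : MeasurePreserving S ρ ρ) (h : NilFamily ρ S M p g φ) :
    (∀ᵐ z ∂ρ, ∀ n : ℕ, g (S^[n] z) = g z) ∧
    (∀ᵐ z ∂ρ, ∀ (n : ℕ) (a : G), p a = φ z → φ (S^[n] z) = p (g z ^ n * a)) := by
  have hgn : ∀ᵐ z ∂ρ, ∀ n : ℕ, g (S^[n] z) = g z := by
    filter_upwards [Pool.Agent.Helper42K9.AC.AbsL.ae_orbit hS h.invariant] with z hz n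
    induction n with
    | zero => rfl
    | succ n ih => rw [Function.iterate_succ_apply', hz n, ih]
  refine ⟨hgn, ?_⟩
  filter_upwards [Pool.Agent.Helper42K9.AC.AbsL.ae_orbit hS h.rotation, hgn] with z hz hgz n a ha
  induction n with
  | zero => simpa using ha.symm
  | succ n ih => rw [Function.iterate_succ_apply', hz n _ ih.symm, hgz n, pow_succ', mul_assoc]

end

section

variable {G : Type} [Group G] [TopologicalSpace G] [IsTopologicalGroup G] {Γ : Subgroup G} (M : MalcevCoordinates G Γ)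
  {Y : Type} [MetricSpace Y] [CompactSpace Y] [MeasurableSpace Y] [BorelSpace Y] {p : G → Y}

omit [IsTopologicalGroup G] [CompactSpace Y] [MeasurableSpace Y] [BorelSpace Y] in
lemma dn_comp (hp : IsQ Γ p) (F : Y → ℂ) : dn p (fun g => F (p g)) = F := by
  funext y
  obtain ⟨g, rfl⟩ := hp.2.1 y
  exact dn_p hp (lat_comp hp F) g

omit [CompactSpace Y] in
lemma quant (hp : IsQ Γ p) (F : Y → ℂ) (hF : Continuous F) : Qd (toNil M) p (fun g => F (p g)) := by
  refine qd_all (toNil M) hPER hp M.s _ (hF.comp hp.1) (lat_comp hp F) fun z hz g => ?_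
  rw [(toNil M).fil_big (le_refl M.s) hz, one_mul]

omit [CompactSpace Y] in
/-- the quantitative form -/
theorem part1 (hp : IsQ Γ p) (F : Y → ℂ) (hF : Continuous F) (ε : ℝ) (hε : 0 < ε) : ∃ δ : ℝ, 0 < δ ∧ ∃ K : ℕ,
    ∀ E : Set (Fin (M.d 0) → UnitAddCircle), SmallHorizontal δ K E →
    ∀ f : ℕ → Val, IsMult f → Aperiodic f → ∀ μ : Measure X, IsFurstenbergSystem f μ →
    ∀ (Z : Type) [MeasurableSpace Z] (ρ : Measure Z) [IsProbabilityMeasure ρ] (S : Z → Z) (π : Z → X),
    IsExtension ρ S π μ → ∀ (g : Z → G) (φ : Z → Y), NilFamily ρ S M p g φ →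
    ∀ w : Z → ℂ, Measurable w → (∀ z, ‖w z‖ ≤ 1) → (∀ᵐ z ∂ρ, w (S z) = w z) →
    (∀ᵐ z ∂ρ, w z ≠ 0 → horizontal M (g z) ∈ E) → ‖∫ z, ((π z 0 : ℝ) : ℂ) * (w z * F (φ z)) ∂ρ‖ ≤ ε := by
  obtain ⟨δ, hδ, K, h⟩ := quant M hp F hF ε hε
  refine ⟨δ, hδ, K, fun E hE f hf ha μ hμ Z _ ρ _ S π hext g φ hφ w hw hw1 hwS hwE => ?_⟩
  have hwn : ∀ᵐ z ∂ρ, ∀ n : ℕ, w (S^[n] z) = w z := by
    filter_upwards [Pool.Agent.Helper42K9.AC.AbsL.ae_orbit hext.1 hwS] with z hz n
    induction n with
    | zero => rfl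
    | succ n ih => rw [Function.iterate_succ_apply', hz n, ih]
  have h1 := h E (sm_of M hE) f hf ha μ hμ Z ρ S π ⟨hext.1, hext.2.1, hext.2.2⟩ g φ hφ.measurable (orbit M hext.1 hφ).2 w
    hw hw1 hwn (by
      filter_upwards [hwE] with z hz hz0
      have h2 : md ((toNil M).π 0 (g z)) = horizontal M (g z) :=
        Pool.Agent.Results.MP_663568_nt.AllNilmanifolds.md_eq M (g z)
      have h3 := hz hz0
      rw [← h2] at h3
      exact h3)
  rwa [dn_comp hp] at h1

variable {f : ℕ → Val} {μ : Measure X} {Z : Type} [MeasurableSpace Z] {ρ : Measure Z} [IsProbabilityMeasure ρ]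
  {S : Z → Z} {π : Z → X}

/-- singular frequencies, continuous functions -/
theorem sing_cont (hf : IsMult f) (ha : Aperiodic f) (hμ : IsFurstenbergSystem f μ) (hext : IsExtension ρ S π μ)
    {g : Z → G} {φ : Z → Y} (hφ : NilFamily ρ S M p g φ) (hs : Singular ρ M g) (F : C(Y, ℂ))
    {w : Z → ℂ} (hw : Measurable w) (hw1 : ∀ z, ‖w z‖ ≤ 1) (hwS : ∀ᵐ z ∂ρ, w (S z) = w z) :
    ∫ z, ((π z 0 : ℝ) : ℂ) * (w z * F (φ z)) ∂ρ = 0 := by
  have hp : IsQ Γ p := ⟨hφ.continuous, hφ.surjective, hφ.fibres⟩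
  set K₀ : ℝ := ‖F‖ + 1 with hK₀
  have hK₀0 : 0 < K₀ := by positivity
  have hFK : ∀ y, ‖F y‖ ≤ K₀ := fun y => (F.norm_coe_le_norm y).trans (by linarith)
  have hE' : Pool.Agent.Helper42K9.AC.Ext ρ S π μ := ⟨hext.1, hext.2.1, hext.2.2⟩
  rw [← norm_le_zero_iff]
  refine le_of_forall_pos_le_add fun ε hε => ?_
  rw [zero_add]
  obtain ⟨δ, hδ, K, h⟩ := part1 M hp F F.continuous (ε / 2) (by positivity)
  obtain ⟨E, hEc, hE, hρE⟩ := Pool.Agent.Helper44K9.FS.exists_compact ρ (fun z => horizontal M (g z))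
    hφ.measurable_horizontal {k | k ≠ 0} (fun k hk => (hs k hk).1) (fun k hk => by
      filter_upwards [(hs k hk).2] with z hz
      exact irr_of hz) (ENNReal.ofReal (ε / (2 * K₀))) (by simp [div_pos hε (mul_pos two_pos hK₀0)])
  have hSm : SmallHorizontal δ K E := by
    refine ⟨hEc, fun k hk => ⟨fun x hx t ht => ?_, fun _ => ?_⟩⟩
    · rintro ⟨q, hq⟩
      have h := (hE k hk).2 x hx
      rw [addOrderOf_eq_zero_iff, isOfFinAddOrder_iff_nsmul_eq_zero] at h
      apply h
      refine ⟨q.den, q.pos, ?_⟩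
      show q.den • (∑ i, k i • x i) = 0
      rw [← ht, ← hq, ← AddCircle.coe_nsmul, AddCircle.coe_eq_zero_iff]
      refine ⟨q.num, ?_⟩
      rw [zsmul_eq_mul, mul_one, nsmul_eq_mul]
      have h2 := Rat.den_mul_eq_num q
      have h3 : ((q.den : ℝ)) * (q : ℝ) = (q.num : ℝ) := by exact_mod_cast h2
      rw [h3]
    · have h0 : volume ((fun x : Fin (M.d 0) → UnitAddCircle => ∑ i, k i • x i) '' E) = 0 := (hE k hk).1
      rw [h0]
      exact zero_le
  set D : Set Z := {z | horizontal M (g z) ∈ E} with hD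
  have hDm : MeasurableSet D := hφ.measurable_horizontal hEc.measurableSet
  have h1 := h E hSm f hf ha μ hμ Z ρ S π hext g φ hφ (D.indicator w) (hw.indicator hDm) (fun z => by
    by_cases hz : z ∈ D
    · rw [Set.indicator_of_mem hz]; exact hw1 z
    · rw [Set.indicator_of_notMem hz]; simp) (by
    filter_upwards [hwS, hφ.invariant] with z h2 h3
    have h4 : S z ∈ D ↔ z ∈ D := by
      show horizontal M (g (S z)) ∈ E ↔ horizontal M (g z) ∈ E
      rw [h3]
    by_cases hz : z ∈ D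
    · rw [Set.indicator_of_mem hz, Set.indicator_of_mem (h4.2 hz), h2]
    · rw [Set.indicator_of_notMem hz, Set.indicator_of_notMem (fun h => hz (h4.1 h))]) (ae_of_all _ fun z hz => by
    by_contra hz'
    exact hz (Set.indicator_of_notMem (show z ∉ D from hz') _))
  have i1 := q_int hE' hw hw1 hφ.measurable F.continuous.measurable hFK
  have i2 := q_int hE' (hw.indicator hDm) (fun z => by
    by_cases hz : z ∈ D
    · rw [Set.indicator_of_mem hz]; exact hw1 z
    · rw [Set.indicator_of_notMem hz]; simp) hφ.measurable F.continuous.measurable hFK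
  have i3 := q_int hE' (hw.indicator hDm.compl) (fun z => by
    by_cases hz : z ∈ Dᶜ
    · rw [Set.indicator_of_mem hz]; exact hw1 z
    · rw [Set.indicator_of_notMem hz]; simp) hφ.measurable F.continuous.measurable hFK
  have e : ∫ z, ((π z 0 : ℝ) : ℂ) * (w z * F (φ z)) ∂ρ =
      ∫ z, ((π z 0 : ℝ) : ℂ) * (D.indicator w z * F (φ z)) ∂ρ +
      ∫ z, ((π z 0 : ℝ) : ℂ) * (Dᶜ.indicator w z * F (φ z)) ∂ρ := by
    rw [← integral_add i2 i3]
    refine integral_congr_ae (ae_of_all _ fun z => ?_)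
    have h5 : D.indicator w z + Dᶜ.indicator w z = w z := Set.indicator_self_add_compl_apply D w z
    show ((π z 0 : ℝ) : ℂ) * (w z * F (φ z)) = _
    rw [← h5]
    ring
  have h2 : ‖∫ z, ((π z 0 : ℝ) : ℂ) * (Dᶜ.indicator w z * F (φ z)) ∂ρ‖ ≤ ε / 2 := by
    refine (norm_integral_le_integral_norm _).trans ?_
    have h3 : ∫ z, ‖((π z 0 : ℝ) : ℂ) * (Dᶜ.indicator w z * F (φ z))‖ ∂ρ ≤ ∫ z, Dᶜ.indicator (fun _ => K₀) z ∂ρ := by
      refine integral_mono i3.norm ((integrable_const K₀).indicator hDm.compl) fun z => ?_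
      show ‖((π z 0 : ℝ) : ℂ) * (Dᶜ.indicator w z * F (φ z))‖ ≤ Dᶜ.indicator (fun _ => K₀) z
      by_cases hz : z ∈ Dᶜ
      · rw [Set.indicator_of_mem hz, Set.indicator_of_mem hz, norm_mul, norm_mul]
        calc _ ≤ 1 * (1 * K₀) := mul_le_mul (Pool.Agent.Helper44K9.FS.val_le _ _)
              (mul_le_mul (hw1 z) (hFK _) (norm_nonneg _) zero_le_one) (by positivity) zero_le_one
          _ = K₀ := by ring
      · rw [Set.indicator_of_notMem hz, zero_mul, mul_zero, norm_zero]
        exact Set.indicator_nonneg (fun _ _ => hK₀0.le) z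
    refine h3.trans ?_
    rw [integral_indicator_const _ hDm.compl, smul_eq_mul]
    have h4 : ρ.real Dᶜ ≤ ε / (2 * K₀) := by
      unfold Measure.real
      rw [← ENNReal.toReal_ofReal (show 0 ≤ ε / (2 * K₀) by positivity)]
      exact ENNReal.toReal_mono ENNReal.ofReal_ne_top hρE.le
    calc ρ.real Dᶜ * K₀ ≤ ε / (2 * K₀) * K₀ := mul_le_mul_of_nonneg_right h4 hK₀0.le
      _ = ε / 2 := by field_simp
  rw [e]
  refine (norm_add_le _ _).trans ?_
  linarith

/-- singular frequencies, all functions -/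
theorem part2 (hf : IsMult f) (ha : Aperiodic f) (hμ : IsFurstenbergSystem f μ) (hext : IsExtension ρ S π μ)
    {g : Z → G} {φ : Z → Y} (hφ : NilFamily ρ S M p g φ) (hs : Singular ρ M g) {W : Type} [MeasurableSpace W]
    (κ : Z → W) (hκ : Measurable κ) (hκS : ∀ᵐ z ∂ρ, κ (S z) = κ z) (V : W × Y → ℂ) (hV : Measurable V) (C : ℝ)
    (hVC : ∀ v, ‖V v‖ ≤ C) : ∫ z, ((π z 0 : ℝ) : ℂ) * V (κ z, φ z) ∂ρ = 0 := by
  refine Pool.Agent.Helper44K9.FS.all_functions ρ (fun z => (π z 0 : ℝ))
    (measurable_subtype_coe.comp ((measurable_pi_apply 0).comp hext.2.1.measurable)) (fun z => ?_) κ hκ φ hφ.measurable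
    (fun B hB F => ?_) V hV C hVC
  · have := Pool.Agent.Helper44K9.FS.val_le (π z) 0
    rwa [Complex.norm_real] at this
  · have h1 := sing_cont M hf ha hμ hext hφ hs F (w := (κ ⁻¹' B).indicator fun _ => (1 : ℂ))
      (measurable_const.indicator (hκ hB)) (fun z => by
        by_cases hz : z ∈ κ ⁻¹' B
        · rw [Set.indicator_of_mem hz]; simp
        · rw [Set.indicator_of_notMem hz]; simp) (by
        filter_upwards [hκS] with z hz
        have h2 : S z ∈ κ ⁻¹' B ↔ z ∈ κ ⁻¹' B := by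
          show κ (S z) ∈ B ↔ κ z ∈ B
          rw [hz]
        by_cases hz' : z ∈ κ ⁻¹' B
        · rw [Set.indicator_of_mem hz', Set.indicator_of_mem (h2.2 hz')]
        · rw [Set.indicator_of_notMem hz', Set.indicator_of_notMem (fun h => hz' (h2.1 h))])
    rw [← h1]
    refine integral_congr_ae (ae_of_all _ fun z => ?_)
    by_cases hz : z ∈ κ ⁻¹' B
    · simp [Set.indicator_of_mem hz]
    · simp [Set.indicator_of_notMem hz]

end

section limits

/-- limits of increasing families of `σ`-algebras -/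
lemma pro_real {Z : Type} [m₀ : MeasurableSpace Z] {ρ : Measure Z} [IsProbabilityMeasure ρ] {v : Z → ℝ} (hv : Measurable v)
    (hv1 : ∀ z, |v z| ≤ 1) (m : ℕ → MeasurableSpace Z) (hm : Monotone m) (hle : ∀ i, m i ≤ m₀)
    (h : ∀ i (u : Z → ℝ) (C : ℝ), Measurable[m i] u → (∀ z, |u z| ≤ C) → ∫ z, v z * u z ∂ρ = 0)
    {u : Z → ℝ} (hu : Measurable[⨆ i, m i] u) {C : ℝ} (hC : ∀ z, |u z| ≤ C) : ∫ z, v z * u z ∂ρ = 0 := by
  set 𝓕 : Filtration ℕ m₀ := ⟨m, hm, hle⟩ with h𝓕
  have hum : Measurable u := hu.mono (iSup_le hle) le_rfl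
  have hui : Integrable u ρ := Integrable.of_bound hum.aestronglyMeasurable C (ae_of_all _ hC)
  have hlim := hui.tendsto_eLpNorm_condExp (ℱ := 𝓕) hu.stronglyMeasurable
  have hC0 : 0 ≤ C := by
    rcases isEmpty_or_nonempty Z with hZ | hZ
    · exfalso
      have := (IsProbabilityMeasure.ne_zero ρ)
      exact this (Measure.eq_zero_of_isEmpty ρ)
    · exact (abs_nonneg _).trans (hC (Classical.arbitrary Z))
  have hzero : ∀ i, ∫ z, v z * (ρ[u | 𝓕 i]) z ∂ρ = 0 := by
    intro i
    have h1 : StronglyMeasurable[𝓕 i] (ρ[u | 𝓕 i]) := stronglyMeasurable_condExp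
    have h2 : ∀ᵐ z ∂ρ, |(ρ[u | 𝓕 i]) z| ≤ C := by
      exact ae_bdd_abs_condExp_of_ae_bdd_abs (m := 𝓕 i) (μ := ρ) (R := C) (f := u) (ae_of_all _ hC)
    have h3 := h i (fun z => max (min ((ρ[u | 𝓕 i]) z) C) (-C)) C
      ((h1.measurable.min measurable_const).max measurable_const) (fun z => by
        rw [abs_le]
        exact ⟨le_max_right _ _, max_le (min_le_right _ _) (by linarith)⟩)
    rw [← h3]
    refine integral_congr_ae ?_
    filter_upwards [h2] with z hz
    have h4 := abs_le.1 hz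
    show v z * (ρ[u | 𝓕 i]) z = v z * max (min ((ρ[u | 𝓕 i]) z) C) (-C)
    rw [min_eq_left h4.2, max_eq_left h4.1]
  have hbd : ∀ i, ‖∫ z, v z * u z ∂ρ‖ ≤ (eLpNorm (ρ[u | 𝓕 i] - u) 1 ρ).toReal := by
    intro i
    have i1 : Integrable (fun z => v z * u z) ρ := by
      refine Integrable.of_bound (hv.mul hum).aestronglyMeasurable C (ae_of_all _ fun z => ?_)
      rw [norm_mul]
      calc _ ≤ 1 * C := mul_le_mul (hv1 z) (hC z) (abs_nonneg _) zero_le_one
        _ = C := one_mul _
    have i2 : Integrable (fun z => v z * (ρ[u | 𝓕 i]) z) ρ :=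
      (integrable_condExp (m := 𝓕 i) (μ := ρ) (f := u)).bdd_mul hv.aestronglyMeasurable (ae_of_all _ hv1)
    have i3 : Integrable (ρ[u | 𝓕 i] - u) ρ := integrable_condExp.sub hui
    have e : ∫ z, v z * u z ∂ρ = -∫ z, v z * (ρ[u | 𝓕 i] - u) z ∂ρ := by
      have : (fun z => v z * (ρ[u | 𝓕 i] - u) z) = fun z => v z * (ρ[u | 𝓕 i]) z - v z * u z := by
        funext z
        simp only [Pi.sub_apply]
        ring
      rw [this, integral_sub i2 i1, hzero i]
      ring
    rw [e, norm_neg]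
    refine (norm_integral_le_integral_norm _).trans ?_
    rw [eLpNorm_one_eq_lintegral_enorm, ← integral_norm_eq_lintegral_enorm i3.aestronglyMeasurable]
    refine integral_mono_of_nonneg (ae_of_all _ fun _ => norm_nonneg _) i3.norm (ae_of_all _ fun z => ?_)
    show ‖v z * (ρ[u | 𝓕 i] - u) z‖ ≤ ‖(ρ[u | 𝓕 i] - u) z‖
    rw [norm_mul]
    calc _ ≤ 1 * ‖(ρ[u | 𝓕 i] - u) z‖ := mul_le_mul_of_nonneg_right (hv1 z) (norm_nonneg _)
      _ = _ := one_mul _
  have hlim2 : Tendsto (fun i => (eLpNorm (ρ[u | 𝓕 i] - u) 1 ρ).toReal) atTop (𝓝 0) := by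
    have := (ENNReal.tendsto_toReal ENNReal.zero_ne_top).comp hlim
    rw [ENNReal.toReal_zero] at this
    exact this
  have := ge_of_tendsto' hlim2 hbd
  exact norm_le_zero_iff.1 this

variable {f : ℕ → Val} {μ : Measure X} {Z : Type} [MeasurableSpace Z] {ρ : Measure Z} [IsProbabilityMeasure ρ]
  {S : Z → Z} {π : Z → X}

/-- inverse limits -/
theorem part3 (hf : IsMult f) (ha : Aperiodic f) (hμ : IsFurstenbergSystem f μ) (hext : IsExtension ρ S π μ)
    {G : ℕ → Type} [∀ i, Group (G i)] [∀ i, TopologicalSpace (G i)] [∀ i, IsTopologicalGroup (G i)]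
    {Γ : ∀ i, Subgroup (G i)} (M : ∀ i, MalcevCoordinates (G i) (Γ i)) {Y : ℕ → Type} [∀ i, MetricSpace (Y i)]
    [∀ i, CompactSpace (Y i)] [∀ i, MeasurableSpace (Y i)] [∀ i, BorelSpace (Y i)] {p : ∀ i, G i → Y i}
    {g : ∀ i, Z → G i} {φ : ∀ i, Z → Y i} (hφ : ∀ i, NilFamily ρ S (M i) (p i) (g i) (φ i))
    (hs : ∀ i, Singular ρ (M i) (g i)) {W : Type} [MeasurableSpace W] (κ : Z → W) (hκ : Measurable κ)
    (hκS : ∀ᵐ z ∂ρ, κ (S z) = κ z)
    (hmono : Monotone fun i => MeasurableSpace.comap (fun z => (κ z, φ i z)) inferInstance) (u : Z → ℂ)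
    (hu : Measurable[⨆ i, MeasurableSpace.comap (fun z => (κ z, φ i z)) inferInstance] u) (C : ℝ)
    (hC : ∀ z, ‖u z‖ ≤ C) : ∫ z, ((π z 0 : ℝ) : ℂ) * u z ∂ρ = 0 := by
  have hv : Measurable fun z => (π z 0 : ℝ) :=
    measurable_subtype_coe.comp ((measurable_pi_apply 0).comp hext.2.1.measurable)
  have hv1 : ∀ z, |(π z 0 : ℝ)| ≤ 1 := fun z => by
    have := Pool.Agent.Helper44K9.FS.val_le (π z) 0
    rwa [Complex.norm_real] at this
  have hle : ∀ i, MeasurableSpace.comap (fun z => (κ z, φ i z)) inferInstance ≤ (inferInstance : MeasurableSpace Z) :=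
    fun i => (hκ.prodMk (hφ i).measurable).comap_le
  have key : ∀ i (a : Z → ℝ) (C : ℝ), Measurable[MeasurableSpace.comap (fun z => (κ z, φ i z)) inferInstance] a →
      (∀ z, |a z| ≤ C) → ∫ z, (π z 0 : ℝ) * a z ∂ρ = 0 := by
    intro i a C ha' hC
    obtain ⟨V, hV, hVa⟩ := ha'.exists_eq_measurable_comp
    have hC0 : 0 ≤ C := by
      rcases isEmpty_or_nonempty Z with hZ | hZ
      · exfalso
        exact (IsProbabilityMeasure.ne_zero ρ) (Measure.eq_zero_of_isEmpty ρ)
      · exact (abs_nonneg _).trans (hC (Classical.arbitrary Z))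
    have h1 := part2 (M i) hf ha hμ hext (hφ i) (hs i) κ hκ hκS (fun y => ((max (min (V y) C) (-C) : ℝ) : ℂ))
      (Complex.measurable_ofReal.comp ((hV.min measurable_const).max measurable_const)) C (fun y => by
        rw [Complex.norm_real, Real.norm_eq_abs, abs_le]
        exact ⟨le_max_right _ _, max_le (min_le_right _ _) (by linarith)⟩)
    have h2 : ∀ z, ((π z 0 : ℝ) : ℂ) * ((max (min (V (κ z, φ i z)) C) (-C) : ℝ) : ℂ) = (((π z 0 : ℝ) * a z : ℝ) : ℂ) := by
      intro z
      have h3 := abs_le.1 (hC z)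
      have h4 : V (κ z, φ i z) = a z := by rw [hVa]; rfl
      rw [h4, min_eq_left h3.2, max_eq_left h3.1]
      push_cast
      ring
    simp only [h2] at h1
    rw [integral_complex_ofReal] at h1
    exact_mod_cast h1
  have hum : Measurable u := hu.mono (iSup_le hle) le_rfl
  have hre := pro_real hv hv1 _ hmono hle key (u := fun z => (u z).re) (Complex.measurable_re.comp hu)
    (C := C) (fun z => (Complex.abs_re_le_norm _).trans (hC z))
  have him := pro_real hv hv1 _ hmono hle key (u := fun z => (u z).im) (Complex.measurable_im.comp hu)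
    (C := C) (fun z => (Complex.abs_im_le_norm _).trans (hC z))
  have hVi : Integrable (fun z => ((π z 0 : ℝ) : ℂ) * u z) ρ := by
    refine Integrable.of_bound ((Complex.measurable_ofReal.comp hv).mul hum).aestronglyMeasurable C
      (ae_of_all _ fun z => ?_)
    rw [norm_mul, Complex.norm_real]
    calc _ ≤ 1 * C := mul_le_mul (hv1 z) (hC _) (norm_nonneg _) zero_le_one
      _ = C := one_mul _
  apply Complex.ext
  · have h1 : (∫ z, ((π z 0 : ℝ) : ℂ) * u z ∂ρ).re = ∫ z, (((π z 0 : ℝ) : ℂ) * u z).re ∂ρ := (integral_re hVi).symm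
    rw [h1, Complex.zero_re]
    refine Eq.trans (integral_congr_ae (ae_of_all _ fun z => ?_)) hre
    simp
  · have h1 : (∫ z, ((π z 0 : ℝ) : ℂ) * u z ∂ρ).im = ∫ z, (((π z 0 : ℝ) : ℂ) * u z).im ∂ρ := (integral_im hVi).symm
    rw [h1, Complex.zero_im]
    refine Eq.trans (integral_congr_ae (ae_of_all _ fun z => ?_)) him
    simp

end limits

/-- **Families of nilrotations of every step with singular horizontal frequencies.** Let `f` be an aperiodic
multiplicative function with values `1` and `-1`, `μ` a Furstenberg system of `f` and `(Z, ρ, S)` an extension of it.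
(1) Let `φ` be a family of nilrotations of a nilmanifold of any step, with `φ(S z) = g(z) φ(z)`, and with singular
horizontal frequencies. Then `∫ x(0) V(κ, φ) dρ = 0` for all invariant maps `κ` and all bounded measurable functions `V`.
(2) The same holds for inverse limits: let `φ_0, φ_1, …` be such families, the `σ`-algebras of `(κ, φ_i)` increasing
with `i`. Then `∫ x(0) u dρ = 0` for all bounded functions `u` which are measurable with respect to `κ` and all `φ_i`.
(3) Quantitative form: for every nilmanifold `Y = G/Γ`, continuous `F` on `Y` and `ε > 0` there are `δ > 0` and `K` such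
that for every set `E` of horizontal directions with `SmallHorizontal δ K E` we have, for all `f`, `μ`, `(Z, ρ, S)` as above
and all families `φ` of nilrotations of `Y`, `|∫ x(0) w F(φ) dρ| ≤ ε` for all invariant functions `w`, `|w| ≤ 1`, such that
the horizontal part of `g` is in `E` where `w ≠ 0`. -/
theorem result :
    (∀ f : ℕ → Val, IsMult f → Aperiodic f → ∀ μ : Measure X, IsFurstenbergSystem f μ →
      ∀ (Z : Type) [MeasurableSpace Z] (ρ : Measure Z) [IsProbabilityMeasure ρ] (S : Z → Z) (π : Z → X),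
      IsExtension ρ S π μ → ∀ (W : Type) [MeasurableSpace W] (κ : Z → W), Measurable κ → (∀ᵐ z ∂ρ, κ (S z) = κ z) →
      (∀ (G : Type) [Group G] [TopologicalSpace G] [IsTopologicalGroup G] (Γ : Subgroup G) (M : MalcevCoordinates G Γ)
        (Y : Type) [MetricSpace Y] [CompactSpace Y] [MeasurableSpace Y] [BorelSpace Y] (p : G → Y) (g : Z → G)
        (φ : Z → Y), NilFamily ρ S M p g φ → Singular ρ M g → ∀ V : W × Y → ℂ, Measurable V → ∀ C : ℝ,
        (∀ v, ‖V v‖ ≤ C) → ∫ z, ((π z 0 : ℝ) : ℂ) * V (κ z, φ z) ∂ρ = 0) ∧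
      ∀ (G : ℕ → Type) [∀ i, Group (G i)] [∀ i, TopologicalSpace (G i)] [∀ i, IsTopologicalGroup (G i)]
        (Γ : ∀ i, Subgroup (G i)) (M : ∀ i, MalcevCoordinates (G i) (Γ i)) (Y : ℕ → Type) [∀ i, MetricSpace (Y i)]
        [∀ i, CompactSpace (Y i)] [∀ i, MeasurableSpace (Y i)] [∀ i, BorelSpace (Y i)] (p : ∀ i, G i → Y i)
        (g : ∀ i, Z → G i) (φ : ∀ i, Z → Y i), (∀ i, NilFamily ρ S (M i) (p i) (g i) (φ i)) →
        (∀ i, Singular ρ (M i) (g i)) →
        (Monotone fun i => MeasurableSpace.comap (fun z => (κ z, φ i z)) inferInstance) →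
        ∀ u : Z → ℂ, Measurable[⨆ i, MeasurableSpace.comap (fun z => (κ z, φ i z)) inferInstance] u →
        ∀ C : ℝ, (∀ z, ‖u z‖ ≤ C) → ∫ z, ((π z 0 : ℝ) : ℂ) * u z ∂ρ = 0) ∧
    ∀ (G : Type) [Group G] [TopologicalSpace G] [IsTopologicalGroup G] (Γ : Subgroup G) (M : MalcevCoordinates G Γ)
      (Y : Type) [MetricSpace Y] [CompactSpace Y] [MeasurableSpace Y] [BorelSpace Y] (p : G → Y) (F : C(Y, ℂ)) (ε : ℝ),
      0 < ε → ∃ δ : ℝ, 0 < δ ∧ ∃ K : ℕ, ∀ E : Set (Fin (M.d 0) → UnitAddCircle), SmallHorizontal δ K E →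
      ∀ f : ℕ → Val, IsMult f → Aperiodic f → ∀ μ : Measure X, IsFurstenbergSystem f μ →
      ∀ (Z : Type) [MeasurableSpace Z] (ρ : Measure Z) [IsProbabilityMeasure ρ] (S : Z → Z) (π : Z → X),
      IsExtension ρ S π μ → ∀ (g : Z → G) (φ : Z → Y), NilFamily ρ S M p g φ →
      ∀ w : Z → ℂ, Measurable w → (∀ z, ‖w z‖ ≤ 1) → (∀ᵐ z ∂ρ, w (S z) = w z) →
      (∀ᵐ z ∂ρ, w z ≠ 0 → horizontal M (g z) ∈ E) → ‖∫ z, ((π z 0 : ℝ) : ℂ) * (w z * F (φ z)) ∂ρ‖ ≤ ε := by
  refine ⟨?_, ?_⟩
  · intro f hf ha μ hμ Z _ ρ _ S π hext W _ κ hκ hκS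
    refine ⟨?_, ?_⟩
    · intro G _ _ _ Γ M Y _ _ _ _ p g φ hφ hs V hV C hC
      exact part2 M hf ha hμ hext hφ hs κ hκ hκS V hV C hC
    · intro G _ _ _ Γ M Y _ _ _ _ p g φ hφ hs hmono u hu C hC
      exact part3 hf ha hμ hext M hφ hs κ hκ hκS hmono u hu C hC
  · intro G _ _ _ Γ M Y _ _ _ _ p F ε hε
    by_cases hp : IsQ Γ p
    · exact part1 M hp F F.continuous ε hε
    · refine ⟨1, one_pos, 0, fun E _ f _ _ μ _ Z _ ρ _ S π _ g φ hφ => ?_⟩
      exact absurd ⟨hφ.continuous, hφ.surjective, hφ.fibres⟩ hp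

end Pool.Agent.Results.MP_4a7640_nt.NilpotentFamilies
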