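import Mathlib
import Pool.Agent.Helper5.PV.Proc
import Pool.Agent.Helper45.PV.REV
import Pool.Agent.Helper45.PV.ORT
import Pool.Agent.Helper46.PV.DEC
import Pool.Agent.Helper46.PV.PEEL
import Pool.Agent.Helper56.PV.LOB
import Pool.Agent.Helper56.PV.PN
import Pool.Agent.Helper70.PV.BAD
import Pool.Agent.Helper70.PV.INTERP
import Pool.Agent.Helper70.PV.TK
import Pool.Agent.Helper70.PV.UPB
import Pool.Agent.Helper79.PV.CNT
import Pool.Graph.R_seed8.TH668.Gen.D
import Pool.Agent.Helper34.FY.Log
import Pool.Agent.Helper34.FY.Aper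

/-!
# Multiplicative functions whose signs at the primes are a process of positive entropy are aperiodic
and have a unique Furstenberg system, the Bernoulli system

`SignMul f` (`Pool.Agent.W257.FS.D`): `f 1 = 1`, `f (m n) = f m f n` for coprime `m, n`, and
`f n ∈ {1, -1}` for `n ≥ 1`.  `IsFurst f ν` (`Pool.Agent.W257.FS.G`): the probability measure `ν` on
`ℤ → ℝ` is a Furstenberg system of `f` (a weak limit of the logarithmic averages of the point masses at
the shifts of the sequence `x_f`).  `bern` (`Pool.Agent.W257.FS.F`): the law of independent fair signs.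
-/

set_option autoImplicit false

open MeasureTheory Filter Topology
open Pool.Agent.W257.FS (SignMul IsFurst bern)

namespace Pool.Agent.Results.MP_4a7640_nt.PositiveEntropySigns

/-- two-sided sequences of signs `(y_j)`, `j ∈ ℤ` -/
abbrev Signs : Type := ℤ → ({-1, 1} : Set ℝ)

/-- the σ-algebra generated by the signs `y_j`, `j < n` -/
@[reducible] noncomputable def Before (n : ℤ) : MeasurableSpace Signs :=
  MeasurableSpace.comap (fun (y : Signs) (i : Set.Iio n) => y i) MeasurableSpace.pi

/-- `μ` is the law of an ergodic stationary process of signs with positive entropy: `y_0` is not almost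
surely a measurable function of the past `(y_j)`, `j < 0` -/
structure PositiveEntropy (μ : Measure Signs) : Prop where
  prob : IsProbabilityMeasure μ
  ergodic : Ergodic (fun (y : Signs) (j : ℤ) => y (j + 1)) μ
  undetermined : ¬ ∃ h : Signs → ℝ, Measurable[Before 0] h ∧ ∀ᵐ y ∂μ, (y 0 : ℝ) = h y

/-- `f y` is a multiplicative function with values `1` and `-1` whose value at the `j`-th prime
`p_j`, `j = 0, 1, …`, is `y_j`; the values at the powers of `p_j` may be arbitrary (measurable)
functions of the `y_i`, `i ≤ j` -/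
structure ValuesAtPrimes (f : Signs → ℕ → ℝ) : Prop where
  mult : ∀ y, SignMul (f y)
  prime : ∀ y (j : ℕ), f y (Nat.nth Nat.Prime j) = y j
  adapted : ∀ j e : ℕ, Measurable[Before (j + 1)] fun y => f y (Nat.nth Nat.Prime j ^ e)

/-- `F` is aperiodic: the distance to every Dirichlet character is infinite -/
def Aperiodic (F : ℕ → ℝ) : Prop :=
  ∀ (q : ℕ) (χ : DirichletCharacter ℂ q), 1 ≤ q → ¬ Summable (fun p : Nat.Primes =>
    (1 - ((F p : ℂ) * star (χ ((p : ℕ) : ZMod q))).re) / ((p : ℕ) : ℝ))

open Pool.Agent.Helper5.PV in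
/-- unweighted averages, for one bounded weight fixed in advance -/
theorem elliott {μ : Measure Signs} (hμ : PositiveEntropy μ) {f : Signs → ℕ → ℝ}
    (hf : ValuesAtPrimes f) (w : ℕ → ℝ) (hw : ∀ n, |w n| ≤ 1) (H : Finset ℕ) (hH : H.Nonempty) :
    ∀ᵐ y ∂μ, Tendsto (fun N : ℕ => (∑ n ∈ Finset.Icc 1 N, w n * ∏ h ∈ H, f y (n + h)) / (N : ℝ))
        atTop (𝓝 0) := by
  have hprob := hμ.prob
  have hsys : Sys μ (shf (E := ({-1, 1} : Set ℝ))) (bef ({-1, 1} : Set ℝ)) := sys_of hμ.ergodic
  set G : Fin 1 → Signs → ℕ → ℂ := fun _ y n => if n = 0 then 1 else (f y n : ℂ) with hG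
  have hmc : Measurable fun e : ({-1, 1} : Set ℝ) => ((e : ℝ) : ℂ) :=
    Complex.measurable_ofReal.comp measurable_subtype_coe
  have hcard : 0 < H.card := hH.card_pos
  have h := main_abs Pool.Agent.Helper45.PV.REV.rev
    (Pool.Agent.Helper46.PV.peel Pool.Agent.Helper45.PV.ORT.ort) Pool.Agent.Helper79.PV.sub
    Pool.Agent.Helper70.PV.interp (Pool.Agent.Helper70.PV.upb Pool.Agent.Helper56.PV.pn)
    (Pool.Agent.Helper79.PV.hit (Pool.Agent.Helper56.PV.lob Pool.Agent.Helper56.PV.pn)
      Pool.Agent.Helper70.PV.tk)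
    Pool.Agent.Helper79.PV.cnt Pool.Agent.Helper70.PV.BAD.bad Pool.Agent.Helper46.PV.dec hsys
    (fun (_ : Fin 1) (y : Signs) => ((y 0 : ℝ) : ℂ))
    (fun _ => hmc.comp (meas_coord (by norm_num)))
    (fun _ y => by
      have h1 := (y 0).2
      simp only [Set.mem_insert_iff, Set.mem_singleton_iff] at h1
      rw [Complex.norm_real]
      rcases h1 with h1 | h1 <;> rw [h1] <;> simp)
    G
    (fun _ y n => by
      simp only [hG]
      split_ifs with hn
      · simp
      · rw [Complex.norm_real]
        rcases (hf.mult y).val n (by omega) with h1 | h1 <;> rw [h1] <;> simp)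
    (fun _ y => by
      simp only [hG]
      rw [if_neg one_ne_zero, (hf.mult y).one]
      simp)
    (fun _ y m n hmn => by
      simp only [hG]
      rcases Nat.eq_zero_or_pos m with hm | hm
      · subst hm
        rw [Nat.coprime_zero_left] at hmn
        subst hmn
        simp [(hf.mult y).one]
      rcases Nat.eq_zero_or_pos n with hn | hn
      · subst hn
        rw [Nat.coprime_zero_right] at hmn
        subst hmn
        simp [(hf.mult y).one]
      · rw [if_neg (Nat.mul_pos hm hn).ne', if_neg hm.ne', if_neg hn.ne', (hf.mult y).mul m n hmn]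
        push_cast
        rfl)
    (fun _ y q => by
      simp only [hG]
      rw [if_neg (Nat.prime_nth_prime q).ne_zero, hf.prime y q]
      simp only [shf_iter, zero_add])
    (fun _ q e => by
      simp only [hG]
      have h1 : pr q ^ e ≠ 0 := pow_ne_zero _ (Nat.prime_nth_prime q).ne_zero
      simp only [if_neg h1]
      exact Complex.measurable_ofReal.comp (hf.adapted q e))
    (fun n => (w n : ℂ)) (fun n => by rw [Complex.norm_real]; exact hw n)
    (k := H.card) (fun _ => 1) (fun i => H.orderEmbOfFin rfl i) (fun _ => le_rfl)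
    (fun i j hij => by
      rw [one_mul, one_mul]
      intro h1
      exact hij ((H.orderEmbOfFin rfl).injective h1.symm))
    (fun _ => 0) ⟨0, hcard⟩
    (by
      rintro ⟨-, h2⟩
      have h3 := h2 0
      obtain ⟨h4, h5, h6⟩ := h3
      refine hμ.undetermined ⟨fun y => (h4 y).re, ?_, ?_⟩
      · have e : (-((0 : ℕ) : ℤ)) = 0 := by simp
        rw [e] at h5
        exact Complex.measurable_re.comp h5.measurable
      · filter_upwards [h6] with y hy
        rw [← hy, Complex.ofReal_re])
  filter_upwards [h] with y hy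
  have h1 : Tendsto (fun N : ℕ => (((∑ n ∈ Finset.Icc 1 N, w n * ∏ h ∈ H, f y (n + h)) / (N : ℝ) : ℝ) : ℂ))
      atTop (𝓝 0) := by
    refine hy.congr fun N => ?_
    push_cast
    congr 1
    refine Finset.sum_congr rfl fun n hn => ?_
    congr 1
    have e : ∏ h ∈ H, (f y (n + h) : ℂ) = ∏ i : Fin H.card, (f y (n + H.orderEmbOfFin rfl i) : ℂ) := by
      conv_lhs => rw [← Finset.image_orderEmbOfFin_univ H rfl]
      rw [Finset.prod_image fun i _ j _ hij => (H.orderEmbOfFin rfl).injective hij]
    rw [e]
    refine Finset.prod_congr rfl fun i _ => ?_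
    have hn1 := (Finset.mem_Icc.1 hn).1
    simp only [hG]
    rw [one_mul, if_neg (by omega)]
  have h2 : Tendsto (fun N : ℕ => ((((∑ n ∈ Finset.Icc 1 N, w n * ∏ h ∈ H, f y (n + h)) / (N : ℝ) : ℝ) :
      ℂ)).re) atTop (𝓝 (0 : ℂ).re) := (Complex.continuous_re.tendsto 0).comp h1
  simp only [Complex.ofReal_re, Complex.zero_re] at h2
  exact h2

open Pool.Agent.W257.FS in
lemma isFurst_congr {F F' : ℕ → ℝ} (h : ∀ n, 1 ≤ n → F n = F' n) (ν : Measure (ℤ → ℝ)) :
    IsFurst F ν ↔ IsFurst F' ν := by
  have e : xf F = xf F' := by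
    funext k
    unfold xf
    split_ifs with hk
    · exact h _ (by omega)
    · rfl
  unfold IsFurst logAvg
  rw [e]

/-- **Aperiodic and Bernoulli.** Let `(y_j)` be ANY ergodic stationary process of signs with positive
entropy and `f y` multiplicative with `f y p_j = y_j`. For every multiplicative `g` with values `1` and
`-1`, almost surely `g · f y` is aperiodic and has exactly one Furstenberg system, the Bernoulli system of
independent fair signs. -/
theorem result (μ : Measure Signs) (hμ : PositiveEntropy μ) (f : Signs → ℕ → ℝ)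
    (hf : ValuesAtPrimes f) (g : ℕ → ℝ) (hg : SignMul g) :
    ∀ᵐ y ∂μ, SignMul (fun n => g n * f y n) ∧ Aperiodic (fun n => g n * f y n) ∧
      ∀ ν, IsFurst (fun n => g n * f y n) ν ↔ ν = bern := by
  classical
  have hg1 : ∀ n, 1 ≤ n → |g n| ≤ 1 := fun n hn => by
    rcases hg.val n hn with h | h <;> rw [h] <;> simp
  have hcor : ∀ᵐ y ∂μ, ∀ H : Finset ℕ, H.Nonempty → Tendsto (fun N : ℕ =>
      (∑ n ∈ Finset.Icc 1 N, (if n = 0 then 0 else ∏ h ∈ H, g (n + h)) * ∏ h ∈ H, f y (n + h)) / (N : ℝ))
        atTop (𝓝 0) := by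
    rw [ae_all_iff]
    intro H
    by_cases hH : H.Nonempty
    swap
    · exact Eventually.of_forall fun y h => absurd h hH
    filter_upwards [elliott hμ hf (fun n => if n = 0 then 0 else ∏ h ∈ H, g (n + h)) (fun n => by
      split_ifs with hn
      · simp
      · rw [Finset.abs_prod]
        exact Finset.prod_le_one (fun _ _ => abs_nonneg _) fun h _ => hg1 _ (by omega)) H hH] with y hy _
    exact hy
  have hper : ∀ᵐ y ∂μ, ∀ M : ℕ, Tendsto (fun N : ℕ =>
      (∑ n ∈ Finset.Icc 1 N, (if n % M = 1 % M ∧ n ≠ 0 then g n else 0) *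
        ∏ h ∈ ({0} : Finset ℕ), f y (n + h)) / (N : ℝ)) atTop (𝓝 0) := by
    rw [ae_all_iff]
    intro M
    exact elliott hμ hf (fun n => if n % M = 1 % M ∧ n ≠ 0 then g n else 0) (fun n => by
      split_ifs with hn
      · exact hg1 _ (by omega)
      · simp) {0} (Finset.singleton_nonempty 0)
  filter_upwards [hcor, hper] with y h1 h2
  have hF : SignMul (fun n => g n * f y n) := by
    refine ⟨?_, fun m n hmn => ?_, fun n hn => ?_⟩
    · show g 1 * f y 1 = 1
      rw [hg.one, (hf.mult y).one, one_mul]
    · show g (m * n) * f y (m * n) = g m * f y m * (g n * f y n)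
      rw [hg.mul m n hmn, (hf.mult y).mul m n hmn]
      ring
    · rcases hg.val n hn with h | h <;> rcases (hf.mult y).val n hn with h' | h' <;>
        simp [h, h']
  set F' : ℕ → ℝ := fun n => if n = 0 then 1 else g n * f y n with hF'
  have hF's : SignMul F' := by
    refine ⟨?_, fun m n hmn => ?_, fun n hn => ?_⟩
    · simp only [hF']
      rw [if_neg one_ne_zero]
      exact hF.one
    · simp only [hF']
      rcases Nat.eq_zero_or_pos m with hm | hm
      · subst hm
        rw [Nat.coprime_zero_left] at hmn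
        subst hmn
        simp [hg.one, (hf.mult y).one]
      rcases Nat.eq_zero_or_pos n with hn | hn
      · subst hn
        rw [Nat.coprime_zero_right] at hmn
        subst hmn
        simp [hg.one, (hf.mult y).one]
      · rw [if_neg (Nat.mul_pos hm hn).ne', if_neg hm.ne', if_neg hn.ne']
        exact hF.mul m n hmn
    · simp only [hF']
      rw [if_neg (by omega)]
      exact hF.val n hn
  have hF'v : ∀ n, F' n = 1 ∨ F' n = -1 := by
    intro n
    rcases Nat.eq_zero_or_pos n with hn | hn
    · left
      simp [hF', hn]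
    · exact hF's.val n hn
  refine ⟨hF, fun q χ hq => Pool.Agent.Helper34.FY.aper_of_means hF (fun M _ => ?_) q hq χ, fun ν => ?_⟩
  · refine (h2 M).congr fun N => ?_
    congr 1
    refine Finset.sum_congr rfl fun n hn => ?_
    have hn1 := (Finset.mem_Icc.1 hn).1
    rw [Finset.prod_singleton, add_zero]
    by_cases h3 : n % M = 1 % M
    · rw [if_pos ⟨h3, by omega⟩, if_pos h3]
    · rw [if_neg (fun h => h3 h.1), if_neg h3, zero_mul]
  · rw [isFurst_congr (F' := F') (fun n hn => by simp only [hF']; rw [if_neg (by omega)]) ν]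
    refine Pool.Agent.TH668.Gen.furst_of_corr hF's hF'v (fun H hH => ?_) ν
    have h3 := Pool.Agent.Helper34.FY.log_of_nat (a := fun n => ∏ h ∈ H, F' (n + h)) (fun n => by
      rw [Finset.abs_prod]
      refine Finset.prod_le_one (fun _ _ => abs_nonneg _) fun h _ => ?_
      rcases hF'v (n + h) with h' | h' <;> rw [h'] <;> simp) (by
      refine (h1 H hH).congr fun N => ?_
      congr 1
      refine Finset.sum_congr rfl fun n hn => ?_
      have hn1 := (Finset.mem_Icc.1 hn).1
      rw [if_neg (by omega), ← Finset.prod_mul_distrib]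
      refine Finset.prod_congr rfl fun h _ => ?_
      simp only [hF']
      rw [if_neg (by omega)])
    exact h3

end Pool.Agent.Results.MP_4a7640_nt.PositiveEntropySigns
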